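import Mathlib
import Pool.Agent.H255R3.STC.Chordal

set_option autoImplicit false
set_option linter.unusedSectionVars false

/-!
The clique polynomial of an `l`-connected chordal `K_{l+3}`-free graph has only real roots.
-/

namespace Pool.Agent.Results.MP_77abd0_co.RealRoots

open Finset SimpleGraph

/-- `G` is chordal: it has no induced cycle with at least four vertices -/
def Chordal {V : Type} (G : SimpleGraph V) : Prop :=
  ∀ n : ℕ, 4 ≤ n → IsEmpty (SimpleGraph.cycleGraph n ↪g G)

/-- `G` is `l`-connected: it has at least `l + 1` vertices and remains connected after the deletion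
of any set of fewer than `l` vertices -/
def LConnected {V : Type} [Fintype V] (l : ℕ) (G : SimpleGraph V) : Prop :=
  l + 1 ≤ Fintype.card V ∧ ∀ T : Finset V, T.card < l → (G.induce {v | v ∉ T}).Connected

open Classical in
/-- the value of the clique polynomial `C(G, x) = ∑ c_k(G) x^k` at `z`, where `c_k(G)` is the number
of cliques with `k` vertices -/
noncomputable def cliquePoly {V : Type} [Fintype V] (G : SimpleGraph V) (z : ℂ) : ℂ :=
  ∑ k ∈ range (Fintype.card V + 1), ((G.cliqueFinset k).card : ℂ) * z ^ k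

variable {V : Type} [Fintype V] [DecidableEq V] {G : SimpleGraph V}

/-- vertex sets which are connected -/
def Con (G : SimpleGraph V) (K : Finset V) : Prop :=
  ∀ a ∈ K, ∀ b ∈ K, ∃ p : G.Walk a b, ∀ z ∈ p.support, z ∈ K

open Classical in
/-- the clique polynomial of the subgraph induced by `s` -/
noncomputable def P (G : SimpleGraph V) (s : Finset V) (z : ℂ) : ℂ :=
  ∑ K ∈ s.powerset.filter (fun K : Finset V => G.IsClique (K : Set V)), z ^ K.card

lemma sum_powerset (s : Finset V) (z : ℂ) : ∑ K ∈ s.powerset, z ^ K.card = (1 + z) ^ s.card := by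
  have h := sum_pow_mul_eq_add_pow z 1 s
  simp only [one_pow, mul_one] at h
  rw [h, add_comm]

lemma P_clique {s : Finset V} (h : G.IsClique (s : Set V)) (z : ℂ) :
    P G s z = (1 + z) ^ s.card := by
  classical
  unfold P
  rw [filter_true_of_mem, sum_powerset]
  intro K hK
  exact h.subset (coe_subset.2 (mem_powerset.1 hK))

open Classical in
lemma P_simplicial {s : Finset V} {v : V} (hv : v ∈ s)
    (hs : ∀ a ∈ s, ∀ b ∈ s, G.Adj v a → G.Adj v b → a ≠ b → G.Adj a b) (z : ℂ) :
    P G s z = P G (s.erase v) z + z * (1 + z) ^ (s.filter (fun u => G.Adj v u)).card := by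
  unfold P
  rw [← sum_powerset, mul_sum]
  have h1 : s.powerset.filter (fun K : Finset V => G.IsClique (K : Set V)) =
      (s.erase v).powerset.filter (fun K : Finset V => G.IsClique (K : Set V)) ∪
      ((s.filter (fun u => G.Adj v u)).powerset.image (insert v)) := by
    ext K
    rw [mem_union, mem_filter, mem_filter, mem_powerset, mem_powerset, mem_image]
    constructor
    · rintro ⟨hK, hc⟩
      by_cases hvK : v ∈ K
      · right
        refine ⟨K.erase v, ?_, insert_erase hvK⟩
        rw [mem_powerset]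
        intro u hu
        rw [mem_erase] at hu
        exact mem_filter.2 ⟨hK hu.2, hc hvK hu.2 hu.1.symm⟩
      · left
        exact ⟨fun u hu => mem_erase.2 ⟨fun h => hvK (h ▸ hu), hK hu⟩, hc⟩
    · rintro (⟨hK, hc⟩ | ⟨K', hK', rfl⟩)
      · exact ⟨hK.trans (erase_subset _ _), hc⟩
      · rw [mem_powerset] at hK'
        refine ⟨insert_subset hv (hK'.trans (filter_subset _ _)), ?_⟩
        intro a ha b hb hab
        rw [mem_coe, mem_insert] at ha hb
        rcases ha with rfl | ha <;> rcases hb with rfl | hb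
        · exact absurd rfl hab
        · exact (mem_filter.1 (hK' hb)).2
        · exact (mem_filter.1 (hK' ha)).2.symm
        · have ha' := mem_filter.1 (hK' ha)
          have hb' := mem_filter.1 (hK' hb)
          exact hs a ha'.1 b hb'.1 ha'.2 hb'.2 hab
  have hvN : ∀ K' ∈ (s.filter (fun u => G.Adj v u)).powerset, v ∉ K' := by
    intro K' hK' h
    exact G.loopless.irrefl v (mem_filter.1 (mem_powerset.1 hK' h)).2
  have h2 : Disjoint ((s.erase v).powerset.filter (fun K : Finset V => G.IsClique (K : Set V)))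
      ((s.filter (fun u => G.Adj v u)).powerset.image (insert v)) := by
    rw [Finset.disjoint_left]
    intro K hK hK'
    rw [mem_image] at hK'
    obtain ⟨K', -, rfl⟩ := hK'
    rw [mem_filter, mem_powerset] at hK
    exact notMem_erase v s (hK.1 (mem_insert_self _ _))
  rw [h1, sum_union h2]
  congr 1
  rw [sum_image]
  · refine sum_congr rfl fun K' hK' => ?_
    rw [card_insert_of_notMem (hvN K' hK'), pow_succ]
    ring
  · intro A hA B hB hAB
    rw [← erase_insert (hvN A hA), ← erase_insert (hvN B hB), hAB]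

/-- rerouting a walk around a simplicial vertex -/
lemma reroute {s : Finset V} {v : V}
    (hs : ∀ a ∈ s, ∀ b ∈ s, G.Adj v a → G.Adj v b → a ≠ b → G.Adj a b) {K : Finset V}
    (hKs : K ⊆ s) {b : V} (hb : b ≠ v) : ∀ {a : V} (p : G.Walk a b), (∀ z ∈ p.support, z ∈ K) →
    (a ≠ v → ∃ q : G.Walk a b, ∀ z ∈ q.support, z ∈ K.erase v) ∧
    (a = v → ∀ x ∈ K, G.Adj v x → ∃ q : G.Walk x b, ∀ z ∈ q.support, z ∈ K.erase v) := by
  intro a p
  induction p with
  | nil =>
    intro hp
    refine ⟨fun _ => ⟨Walk.nil, fun z hz => ?_⟩, fun h => absurd h hb⟩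
    rw [Walk.support_nil, List.mem_singleton] at hz
    rw [hz]
    exact mem_erase.2 ⟨hb, hp _ (by simp)⟩
  | @cons a c b hac p ih =>
    intro hp
    have ih' := ih hb (fun z hz => hp z (by simp [hz]))
    have haK : a ∈ K := hp a (by simp)
    have hcK : c ∈ K := hp c (by simp)
    constructor
    · intro hav
      by_cases hcv : c = v
      · exact ih'.2 hcv a haK (hcv ▸ hac.symm)
      · obtain ⟨q, hq⟩ := ih'.1 hcv
        refine ⟨Walk.cons hac q, fun z hz => ?_⟩
        rw [Walk.support_cons, List.mem_cons] at hz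
        rcases hz with rfl | hz
        · exact mem_erase.2 ⟨hav, haK⟩
        · exact hq z hz
    · rintro rfl x hx hax
      have hca : c ≠ a := hac.ne'
      obtain ⟨q, hq⟩ := ih'.1 hca
      by_cases hxc : x = c
      · subst hxc
        exact ⟨q, hq⟩
      · refine ⟨Walk.cons (hs x (hKs hx) c (hKs hcK) hax hac hxc) q, fun z hz => ?_⟩
        rw [Walk.support_cons, List.mem_cons] at hz
        rcases hz with rfl | hz
        · exact mem_erase.2 ⟨hax.ne', hx⟩
        · exact hq z hz

/-- `l`-connectivity of the subgraph induced by `s` -/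
def LCon (G : SimpleGraph V) (l : ℕ) (s : Finset V) : Prop :=
  l + 1 ≤ s.card ∧ ∀ T ⊆ s, T.card < l → Con G (s \ T)

lemma LCon.erase {l : ℕ} {s : Finset V} (h : LCon G l s) {v : V} (hv : v ∈ s)
    (hs : ∀ a ∈ s, ∀ b ∈ s, G.Adj v a → G.Adj v b → a ≠ b → G.Adj a b)
    (hc : l + 2 ≤ s.card) : LCon G l (s.erase v) := by
  refine ⟨by rw [card_erase_of_mem hv]; omega, fun T hT hTl a ha b hb => ?_⟩
  have h1 : s.erase v \ T = (s \ T).erase v := by
    ext x
    simp only [mem_sdiff, mem_erase]
    tauto
  rw [h1] at ha hb ⊢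
  rw [mem_erase] at ha hb
  obtain ⟨p, hp⟩ := h.2 T (hT.trans (erase_subset _ _)) hTl a ha.2 b hb.2
  exact (reroute hs sdiff_subset hb.1 p hp).1 ha.1

open Classical in
lemma LCon.degree {l : ℕ} {s : Finset V} (h : LCon G l s) {v : V} (hv : v ∈ s) :
    l ≤ (s.filter (fun u => G.Adj v u)).card := by
  by_contra hlt
  push Not at hlt
  set N := s.filter (fun u => G.Adj v u) with hN
  have h1 := h.2 N (filter_subset _ _) hlt
  have hvN : v ∉ N := fun h => G.loopless.irrefl v (mem_filter.1 h).2
  have h2 : 1 < (s \ N).card := by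
    have := card_sdiff_add_card_eq_card (filter_subset (fun u => G.Adj v u) s)
    have h3 := h.1
    rw [← hN] at this
    omega
  obtain ⟨w, hw, hwv⟩ := exists_mem_ne h2 v
  obtain ⟨p, hp⟩ := h1 v (mem_sdiff.2 ⟨hv, hvN⟩) w hw
  cases p with
  | nil => exact hwv rfl
  | @cons _ c _ hadj q =>
    have hc := hp c (by simp)
    rw [mem_sdiff] at hc
    exact hc.2 (mem_filter.2 ⟨hc.1, hadj⟩)

lemma LCon.clique {l : ℕ} {s : Finset V} (h : LCon G l s) (hc : s.card = l + 1) :
    G.IsClique (s : Set V) := by
  intro a ha b hb hab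
  have hab2 : ({a, b} : Finset V) ⊆ s := by
    intro x hx
    rw [mem_insert, mem_singleton] at hx
    rcases hx with rfl | rfl
    · exact ha
    · exact hb
  have h1 : (s \ {a, b}).card < l := by
    have := card_sdiff_add_card_eq_card hab2
    rw [card_pair hab] at this
    omega
  have h2 : s \ (s \ {a, b}) = {a, b} := by
    rw [Finset.sdiff_sdiff_eq_self hab2]
  have h3 := h.2 _ sdiff_subset h1
  rw [h2] at h3
  obtain ⟨p, hp⟩ := h3 a (by simp) b (by simp)
  cases p with
  | nil => exact absurd rfl hab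
  | @cons _ c _ hadj q =>
    have hcm := hp c (by simp)
    rw [mem_insert, mem_singleton] at hcm
    rcases hcm with rfl | rfl
    · exact absurd hadj (G.loopless.irrefl _)
    · exact hadj

/-- the form of the clique polynomial -/
theorem form (hG : Chordal G) {l : ℕ} (hl : 1 ≤ l) (hfree : G.CliqueFree (l + 3)) :
    ∀ (n : ℕ) (s : Finset V), s.card = n → LCon G l s → ∃ α β : ℕ, 1 ≤ α ∧ α + β + l = n ∧
      ∀ z : ℂ, P G s z = (1 + z) ^ l * (1 + α * z + β * z * (1 + z)) := by
  classical
  intro n
  induction n with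
  | zero =>
    intro s hs h
    have := h.1
    omega
  | succ n ih =>
    intro s hs h
    rcases Nat.lt_or_ge s.card (l + 2) with hlt | hge
    · have hc : s.card = l + 1 := by have := h.1; omega
      refine ⟨1, 0, le_rfl, by omega, fun z => ?_⟩
      rw [P_clique (h.clique hc), hc, pow_succ]
      push_cast
      ring
    · obtain ⟨v, hv, hsim⟩ : ∃ v ∈ s, ∀ a ∈ s, ∀ b ∈ s, G.Adj v a → G.Adj v b → a ≠ b →
          G.Adj a b := by
        obtain ⟨x, hx⟩ : s.Nonempty := card_pos.1 (by omega)
        by_cases hcl : ∀ v ∈ s, ∀ w ∈ s, w ≠ v → G.Adj v w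
        · exact ⟨x, hx, fun a ha b hb _ _ hab => hcl a ha b hb hab.symm⟩
        · push Not at hcl
          obtain ⟨v, hv, w, hw, hwv, hvw⟩ := hcl
          obtain ⟨z, hz, -, -, h3⟩ := Pool.Agent.H255R3.STC.exists_simplicial hG _ s le_rfl
            v hv w hw hwv hvw
          exact ⟨z, hz, h3⟩
      obtain ⟨α, β, h1, h2, h3⟩ := ih (s.erase v) (by rw [card_erase_of_mem hv]; omega)
        (h.erase hv hsim hge)
      have hd1 := h.degree hv
      have hP := P_simplicial (G := G) hv hsim
      obtain ⟨N, hN⟩ : ∃ N, N = s.filter (fun u => G.Adj v u) := ⟨_, rfl⟩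
      rw [← hN] at hd1
      simp only [← hN] at hP
      have hNm : ∀ u, u ∈ N ↔ u ∈ s ∧ G.Adj v u := fun u => by rw [hN, mem_filter]
      clear hN
      have hd2 : N.card ≤ l + 1 := by
        by_contra hgt
        push Not at hgt
        have hcl : G.IsClique ((insert v N : Finset V) : Set V) := by
          intro a ha b hb hab
          rw [mem_coe, mem_insert, hNm] at ha hb
          rcases ha with rfl | ha <;> rcases hb with rfl | hb
          · exact absurd rfl hab
          · exact hb.2
          · exact ha.2.symm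
          · exact hsim a ha.1 b hb.1 ha.2 hb.2 hab
        have hcc : l + 3 ≤ (insert v N).card := by
          rw [card_insert_of_notMem (fun h => G.loopless.irrefl v ((hNm v).1 h).2)]
          omega
        obtain ⟨K, hK, hKc⟩ := exists_subset_card_eq hcc
        exact hfree K ⟨hcl.subset (coe_subset.2 hK), hKc⟩
      rcases Nat.lt_or_ge N.card (l + 1) with h4 | h4
      · have h5 : N.card = l := by omega
        refine ⟨α + 1, β, by omega, by omega, fun z => ?_⟩
        rw [hP, h3, h5]
        push_cast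
        ring
      · have h5 : N.card = l + 1 := by omega
        refine ⟨α, β + 1, h1, by omega, fun z => ?_⟩
        rw [hP, h3, h5, pow_succ]
        push_cast
        ring

open Classical in
lemma cliquePoly_eq' {V : Type} [Fintype V] (G : SimpleGraph V) (z : ℂ) : cliquePoly G z =
    ∑ K ∈ (univ : Finset (Finset V)).filter (fun K : Finset V => G.IsClique (K : Set V)), z ^ K.card := by
  unfold cliquePoly
  rw [← sum_fiberwise_of_maps_to
    (s := (univ : Finset (Finset V)).filter (fun K : Finset V => G.IsClique (K : Set V)))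
    (t := range (Fintype.card V + 1)) (g := fun K : Finset V => K.card)
    (fun K _ => mem_range.2 (Nat.lt_succ_of_le (card_le_univ K)))]
  refine sum_congr rfl fun k _ => ?_
  have h1 : ((univ : Finset (Finset V)).filter (fun K : Finset V => G.IsClique (K : Set V))).filter
      (fun K : Finset V => K.card = k) = G.cliqueFinset k := by
    ext K
    rw [mem_filter, mem_filter, mem_cliqueFinset_iff, isNClique_iff]
    exact ⟨fun h => ⟨h.1.2, h.2⟩, fun h => ⟨⟨mem_univ _, h.1⟩, h.2⟩⟩
  rw [h1, ← nsmul_eq_mul, ← sum_const]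
  refine sum_congr rfl fun K hK => ?_
  rw [mem_cliqueFinset_iff, isNClique_iff] at hK
  rw [hK.2]

lemma cliquePoly_eq (G : SimpleGraph V) (z : ℂ) : cliquePoly G z = P G univ z := by
  rw [cliquePoly_eq']
  unfold P
  rw [powerset_univ]
  refine sum_congr ?_ fun _ _ => rfl
  ext K
  simp only [mem_filter]

lemma lCon_univ {l : ℕ} (h : LConnected l G) : LCon G l univ := by
  refine ⟨by rw [card_univ]; exact h.1, fun T _ hT a ha b hb => ?_⟩
  rw [mem_sdiff] at ha hb
  obtain ⟨p⟩ := (h.2 T hT).preconnected ⟨a, ha.2⟩ ⟨b, hb.2⟩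
  have key : ∀ {x y : {v | v ∉ T}} (p : (G.induce {v | v ∉ T}).Walk x y),
      ∃ q : G.Walk x.1 y.1, ∀ z ∈ q.support, z ∈ univ \ T := by
    intro x y p
    induction p with
    | @nil u =>
      refine ⟨Walk.nil, fun z hz => ?_⟩
      rw [Walk.support_nil, List.mem_singleton] at hz
      rw [hz]
      exact mem_sdiff.2 ⟨mem_univ _, u.2⟩
    | @cons x c y hadj p ih =>
      obtain ⟨q, hq⟩ := ih
      have h1 : G.Adj x.1 c.1 := hadj
      refine ⟨Walk.cons h1 q, fun z hz => ?_⟩
      rw [Walk.support_cons, List.mem_cons] at hz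
      rcases hz with rfl | hz
      · exact mem_sdiff.2 ⟨mem_univ _, x.2⟩
      · exact hq z hz
  exact key p

lemma real_of_root {l α β : ℕ} (hα : 1 ≤ α) {z : ℂ}
    (h : (1 + z) ^ l * (1 + α * z + β * z * (1 + z)) = 0) : z.im = 0 := by
  rcases mul_eq_zero.1 h with h | h
  · have h1 : 1 + z = 0 := by
      by_contra hne
      exact pow_ne_zero l hne h
    have h2 : z = -1 := by linear_combination h1
    rw [h2]
    simp
  · have hα' : (1 : ℝ) ≤ α := by exact_mod_cast hα
    have hβ' : (0 : ℝ) ≤ β := Nat.cast_nonneg β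
    have hre := congrArg Complex.re h
    have him := congrArg Complex.im h
    simp only [Complex.add_re, Complex.add_im, Complex.mul_re, Complex.mul_im, Complex.one_re,
      Complex.one_im, Complex.natCast_re, Complex.natCast_im, Complex.zero_re, Complex.zero_im]
      at hre him
    obtain ⟨x, hx⟩ : ∃ x, x = z.re := ⟨_, rfl⟩
    obtain ⟨y, hy⟩ : ∃ y, y = z.im := ⟨_, rfl⟩
    rw [← hx, ← hy] at hre him
    rw [← hy]
    by_contra hne
    have h1 : y * (2 * β * x + (α + β)) = 0 := by linear_combination him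
    have h2 : 2 * (β : ℝ) * x + (α + β) = 0 := by
      rcases mul_eq_zero.1 h1 with h | h
      · exact absurd h hne
      · exact h
    have h3 : (β : ℝ) * (x ^ 2 - y ^ 2) + (α + β) * x + 1 = 0 := by linear_combination hre
    have hβ : (0 : ℝ) < β := by
      rcases hβ'.lt_or_eq with h | h
      · exact h
      · exfalso
        rw [← h] at h2
        nlinarith
    have h4 : 4 * (β : ℝ) ^ 2 * y ^ 2 = 4 * β - (α + β) ^ 2 := by
      have h5 : 4 * (β : ℝ) * (β * (x ^ 2 - y ^ 2) + (α + β) * x + 1) = 0 := by rw [h3]; ring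
      have h6 : (2 * (β : ℝ) * x) = -(α + β) := by linear_combination h2
      nlinarith
    have h5 : (0 : ℝ) < y ^ 2 := by positivity
    have h6 : (0 : ℝ) < 4 * (β : ℝ) ^ 2 * y ^ 2 := by positivity
    nlinarith [sq_nonneg ((β : ℝ) - 1), sq_nonneg ((α : ℝ) - 1)]

/-- **Q1 is true, for all `l ≥ 1`.** The clique polynomial of an `l`-connected chordal
`K_{l+3}`-free graph `G` is `(1 + x)^l (1 + α x + β x (1 + x))` for natural numbers `α ≥ 1` and
`β` with `α + β = |V(G)| - l`, and all its complex roots are real. -/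
theorem result (V : Type) [Fintype V] (G : SimpleGraph V) (l : ℕ) (hl : 1 ≤ l)
    (hconn : LConnected l G) (hchord : Chordal G) (hfree : G.CliqueFree (l + 3)) :
    (∃ α β : ℕ, 1 ≤ α ∧ α + β + l = Fintype.card V ∧
      ∀ z : ℂ, cliquePoly G z = (1 + z) ^ l * (1 + α * z + β * z * (1 + z))) ∧
    ∀ z : ℂ, cliquePoly G z = 0 → z.im = 0 := by
  classical
  obtain ⟨α, β, h1, h2, h3⟩ := form hchord hl hfree _ univ rfl (lCon_univ hconn)
  refine ⟨⟨α, β, h1, by rw [h2, card_univ], fun z => by rw [cliquePoly_eq, h3]⟩, fun z hz => ?_⟩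
  rw [cliquePoly_eq, h3] at hz
  exact real_of_root h1 hz

end Pool.Agent.Results.MP_77abd0_co.RealRoots
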